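import Pool.Agent.JD.Defs

/-!
# [JZR-M] the elliptic curves over `ℚ(ω)` with `j = 0`

PROOF. Existence: `E` over the field `KK` of characteristic `0`; a variable change takes `E` to `y² = x³ + A x + B` (Mathlib: `WeierstrassCurve.exists_variableChange_isCharNeTwoNF` / `IsShortNF`, file Mathlib/AlgebraicGeometry/EllipticCurve/NormalForms.lean: `E.toShortNF`), and `j = 0` is invariant (`variableChange_j`), so `c₄ = -48 A = 0` (`j = Δ'⁻¹ c₄³`), `A = 0`, `B ≠ 0`.
The change `u` (`⟨u, 0, 0, 0⟩`) multiplies `B` by `u⁻⁶`. Every `B ∈ KK*` is `jK b / jK c`; `B (jK c)⁶ = jK (b c⁵)`, so `B = jK b`, `b ≠ 0`. If `q⁶ ∣ b`, `q` prime, divide (`u = jK q`): descent on the norm of `b` (strong induction), until `b` is sixth-power-free.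
Uniqueness: `C • ED (jK D) = ED (jK D')` (compose the two changes): `a₁ = a₃ = 0`, `a₂ = 0`, so `s = 0`, `r = 0`, `t = 0` (char 0), `jK D' = u⁻⁶ jK D`, `u ∈ KK*`, `u = jK x/jK y` with `x, y` coprime (`ℤ[ω]` is a principal ideal domain: `eis_pid`, `eis_isDomain`): `D' x⁶ = D y⁶`; a prime `q ∣ y` gives `q⁶ ∣ D'`, so `y` is a unit, similarly `x` is a unit, and the sixth power of a unit of `ℤ[ω]` is `1` (`CUL.unit_cases` or `Q3`): `D = D'`.
-/

set_option autoImplicit false

open NumberField IsDedekindDomain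
open scoped Classical

namespace JZR

open CM27 CF JD

/-- `D` is nonzero and not divisible by the sixth power of a prime. -/
def SixthPowerFree (D : Eis) : Prop := D ≠ 0 ∧ ∀ q : Eis, Prime q → ¬ q ^ 6 ∣ D

/-- units of `ℤ[ω]` are sixth roots of unity -/
theorem mdl_unit6 {t : Eis} (h : IsUnit t) : t ^ 6 = 1 := by
  rcases (CU.unit_iff t).1 h with h | h | h | h | h | h <;> subst h <;> decide

/-- a sixth-power-free part -/
theorem mdl_part (b : Eis) (hb : b ≠ 0) : ∃ D e : Eis, SixthPowerFree D ∧ e ≠ 0 ∧ b = D * e ^ 6 := by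
  have hdom : IsDomain Eis := eis_isDomain
  have hpid : IsPrincipalIdealRing Eis := eis_pid
  have hwf : WellFounded (DvdNotUnit : Eis → Eis → Prop) := IsWellFounded.wf
  revert hb
  induction b using hwf.induction with
  | _ b ih =>
    intro hb
    by_cases h : SixthPowerFree b
    · exact ⟨b, 1, h, one_ne_zero, by rw [one_pow, mul_one]⟩
    · have h1 : ∃ q : Eis, Prime q ∧ q ^ 6 ∣ b := by
        by_contra hcon
        exact h ⟨hb, fun q hq hq' => hcon ⟨q, hq, hq'⟩⟩
      obtain ⟨q, hq, b', hb'⟩ := h1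
      have hb0 : b' ≠ 0 := by
        rintro rfl
        exact hb (by rw [hb', mul_zero])
      have h2 : DvdNotUnit b' b := by
        refine ⟨hb0, q ^ 6, ?_, by rw [hb', mul_comm]⟩
        intro hu
        exact hq.not_isUnit ((isUnit_pow_iff (by norm_num)).1 hu)
      obtain ⟨D, e, hD, he, h3⟩ := ih b' h2 hb0
      exact ⟨D, q * e, hD, mul_ne_zero hq.ne_zero he, by rw [hb', h3]; ring⟩

/-- uniqueness of the sixth-power-free part -/
theorem mdl_uniq {D D' : Eis} (hD : SixthPowerFree D) (hD' : SixthPowerFree D') (x : Eis) :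
    ∀ y : Eis, x ≠ 0 → y ≠ 0 → D' * x ^ 6 = D * y ^ 6 → ∃ w : Eis, IsUnit w ∧ y = x * w := by
  have hdom : IsDomain Eis := eis_isDomain
  have hpid : IsPrincipalIdealRing Eis := eis_pid
  have hwf : WellFounded (DvdNotUnit : Eis → Eis → Prop) := IsWellFounded.wf
  induction x using hwf.induction with
  | _ x ih =>
    intro y hx hy h
    by_cases hu : IsUnit x
    · by_cases hv : IsUnit y
      · obtain ⟨u, rfl⟩ := hu
        exact ⟨(u⁻¹ : Eisˣ) * y, (u⁻¹ : Eisˣ).isUnit.mul hv, by rw [← mul_assoc, Units.mul_inv, one_mul]⟩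
      · exfalso
        obtain ⟨q, hq, hqy⟩ := WfDvdMonoid.exists_irreducible_factor hv hy
        have hqp : Prime q := hq.prime
        have h1 : q ^ 6 ∣ D' * x ^ 6 := by
          rw [h]
          exact Dvd.dvd.mul_left (pow_dvd_pow_of_dvd hqy 6) D
        exact hD'.2 q hqp ((hu.pow 6).dvd_mul_right.1 h1)
    · obtain ⟨q, hq, hqx⟩ := WfDvdMonoid.exists_irreducible_factor hu hx
      have hqp : Prime q := hq.prime
      by_cases hqy : q ∣ y
      · obtain ⟨x', rfl⟩ := hqx
        obtain ⟨y', rfl⟩ := hqy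
        have hx' : x' ≠ 0 := right_ne_zero_of_mul hx
        have hy' : y' ≠ 0 := right_ne_zero_of_mul hy
        have h1 : DvdNotUnit x' (q * x') := ⟨hx', q, hq.not_isUnit, mul_comm _ _⟩
        have h2 : D' * x' ^ 6 = D * y' ^ 6 := by
          have h3 : q ^ 6 * (D' * x' ^ 6) = q ^ 6 * (D * y' ^ 6) := by
            linear_combination h
          exact mul_left_cancel₀ (pow_ne_zero 6 hq.ne_zero) h3
        obtain ⟨w, hw, h4⟩ := ih x' h1 y' hx' hy' h2
        exact ⟨w, hw, by rw [h4, mul_assoc]⟩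
      · exfalso
        have h1 : q ^ 6 ∣ D * y ^ 6 := by
          rw [← h]
          exact Dvd.dvd.mul_left (pow_dvd_pow_of_dvd hqx 6) D'
        have h2 : ¬ q ∣ y ^ 6 := fun h3 => hqy (hqp.dvd_of_dvd_pow h3)
        exact hD.2 q hqp (hqp.pow_dvd_of_dvd_mul_right 6 h2 h1)

/-- every element of `ℚ(ω)` is a fraction -/
theorem mdl_frac (z : KK) : ∃ x y : Eis, y ≠ 0 ∧ jK x / jK y = z := by
  obtain ⟨a, b, hb, h⟩ := IsFractionRing.div_surjective (𝓞 KK) z
  refine ⟨CU.eE.symm a, CU.eE.symm b, ?_, ?_⟩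
  · intro h0
    have h1 : b = 0 := by
      rw [← CU.eE.apply_symm_apply b, h0, map_zero]
    exact nonZeroDivisors.ne_zero hb h1
  · rw [jK_apply, jK_apply, RingEquiv.apply_symm_apply, RingEquiv.apply_symm_apply]
    exact h

theorem mdl_jK_ne {x : Eis} (hx : x ≠ 0) : jK x ≠ 0 := by
  intro h
  exact hx (jK_inj (by rw [h, map_zero]))

/-- variable changes between curves `y² = x³ + D` -/
theorem mdl_change {a b : KK} (C : WeierstrassCurve.VariableChange KK) (h : C • ED a = ED b) :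
    b * (C.u : KK) ^ 6 = a := by
  have h1 := congrArg WeierstrassCurve.a₁ h
  have h2 := congrArg WeierstrassCurve.a₂ h
  have h3 := congrArg WeierstrassCurve.a₃ h
  have h6 := congrArg WeierstrassCurve.a₆ h
  rw [WeierstrassCurve.variableChange_a₁] at h1
  rw [WeierstrassCurve.variableChange_a₂] at h2
  rw [WeierstrassCurve.variableChange_a₃] at h3
  rw [WeierstrassCurve.variableChange_a₆] at h6
  simp only [ED] at h1 h2 h3 h6
  have hu : ((C.u⁻¹ : KKˣ) : KK) ≠ 0 := (C.u⁻¹ : KKˣ).ne_zero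
  have hs : C.s = 0 := by
    have h4 := (mul_eq_zero.1 h1).resolve_left hu
    have h5 : (2 : KK) * C.s = 0 := by linear_combination h4
    exact (mul_eq_zero.1 h5).resolve_left two_ne_zero
  have hr : C.r = 0 := by
    have h4 := (mul_eq_zero.1 h2).resolve_left (pow_ne_zero 2 hu)
    rw [hs] at h4
    have h5 : (3 : KK) * C.r = 0 := by linear_combination h4
    exact (mul_eq_zero.1 h5).resolve_left three_ne_zero
  have ht : C.t = 0 := by
    have h4 := (mul_eq_zero.1 h3).resolve_left (pow_ne_zero 3 hu)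
    have h5 : (2 : KK) * C.t = 0 := by linear_combination h4
    exact (mul_eq_zero.1 h5).resolve_left two_ne_zero
  rw [hr, ht] at h6
  have hu1 : ((C.u⁻¹ : KKˣ) : KK) * (C.u : KK) = 1 := Units.inv_mul C.u
  have hu6 : ((C.u⁻¹ : KKˣ) : KK) ^ 6 * (C.u : KK) ^ 6 = 1 := by
    rw [← mul_pow, hu1, one_pow]
  rw [← h6]
  linear_combination a * hu6

theorem mdl_scale {a b : KK} (u : KKˣ) (h : b * (u : KK) ^ 6 = a) :
    (⟨u, 0, 0, 0⟩ : WeierstrassCurve.VariableChange KK) • ED a = ED b := by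
  have hu1 : ((u⁻¹ : KKˣ) : KK) * (u : KK) = 1 := Units.inv_mul u
  have hu6 : ((u⁻¹ : KKˣ) : KK) ^ 6 * (u : KK) ^ 6 = 1 := by
    rw [← mul_pow, hu1, one_pow]
  refine WeierstrassCurve.ext ?_ ?_ ?_ ?_ ?_
  · rw [WeierstrassCurve.variableChange_a₁]
    simp only [ED]
    ring
  · rw [WeierstrassCurve.variableChange_a₂]
    simp only [ED]
    ring
  · rw [WeierstrassCurve.variableChange_a₃]
    simp only [ED]
    ring
  · rw [WeierstrassCurve.variableChange_a₄]
    simp only [ED]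
    ring
  · rw [WeierstrassCurve.variableChange_a₆]
    simp only [ED]
    rw [← h]
    linear_combination b * hu6

theorem mdl_isEll {a : KK} (h : a ≠ 0) : (ED a).IsElliptic := by
  refine ⟨?_⟩
  rw [ED_Δ]
  exact (mul_ne_zero (by norm_num) (pow_ne_zero 2 h)).isUnit

/-- existence over the field -/
theorem mdl_short (E : WeierstrassCurve KK) [E.IsElliptic] (hj : E.j = 0) :
    ∃ (C : WeierstrassCurve.VariableChange KK) (B : KK), B ≠ 0 ∧ C • E = ED B := by
  have i2 : Invertible (2 : KK) := invertibleOfNonzero two_ne_zero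
  have i3 : Invertible (3 : KK) := invertibleOfNonzero three_ne_zero
  obtain ⟨C, hC⟩ := E.exists_variableChange_isShortNF
  have hj' : (C • E).j = 0 := by rw [WeierstrassCurve.variableChange_j, hj]
  have hc4 : (C • E).c₄ = 0 := (WeierstrassCurve.j_eq_zero_iff _).1 hj'
  have ha4 : (C • E).a₄ = 0 := by
    rw [WeierstrassCurve.c₄_of_isShortNF] at hc4
    have h5 : (-48 : KK) ≠ 0 := by norm_num
    exact (mul_eq_zero.1 hc4).resolve_left h5
  have hE : C • E = ED ((C • E).a₆) := by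
    refine WeierstrassCurve.ext ?_ ?_ ?_ ?_ ?_
    · exact WeierstrassCurve.a₁_of_isShortNF _
    · exact WeierstrassCurve.a₂_of_isShortNF _
    · exact WeierstrassCurve.a₃_of_isShortNF _
    · exact ha4
    · rfl
  refine ⟨C, (C • E).a₆, ?_, hE⟩
  intro h0
  have hu : IsUnit (C • E).Δ := (C • E).isUnit_Δ
  rw [hE, ED_Δ, h0] at hu
  have h6 : (-432 : KK) * 0 ^ 2 = 0 := by ring
  rw [h6] at hu
  exact not_isUnit_zero hu

theorem model (E : WeierstrassCurve KK) [E.IsElliptic] (hj : E.j = 0) :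
    ∃! D : Eis, SixthPowerFree D ∧ ∃ C : WeierstrassCurve.VariableChange KK, C • E = ED (jK D) := by
  have hdom : IsDomain Eis := eis_isDomain
  obtain ⟨C, B, hB, hC⟩ := mdl_short E hj
  obtain ⟨b, c, hc, hbc⟩ := mdl_frac B
  have hb : b ≠ 0 := by
    rintro rfl
    apply hB
    rw [← hbc, map_zero, zero_div]
  obtain ⟨D, e, hD, he, h1⟩ := mdl_part (b * c ^ 5) (mul_ne_zero hb (pow_ne_zero 5 hc))
  have hjc := mdl_jK_ne hc
  have hje := mdl_jK_ne he
  refine ⟨D, ⟨hD, ?_⟩, ?_⟩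
  · have hu : jK e / jK c ≠ 0 := div_ne_zero hje hjc
    have h2 : jK D * ((Units.mk0 _ hu : KKˣ) : KK) ^ 6 = B := by
      rw [Units.val_mk0, ← hbc, div_pow, ← mul_div_assoc, ← map_pow, ← map_mul, ← h1, map_mul,
        map_pow, div_eq_div_iff (pow_ne_zero 6 hjc) hjc]
      ring
    refine ⟨(⟨Units.mk0 _ hu, 0, 0, 0⟩ : WeierstrassCurve.VariableChange KK) * C, ?_⟩
    rw [mul_smul, hC]
    exact mdl_scale _ h2
  · rintro D' ⟨hD', C', hC'⟩
    have h2 : (C' * C⁻¹) • ED B = ED (jK D') := by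
      rw [← hC, mul_smul, inv_smul_smul, hC']
    have h3 := mdl_change _ h2
    obtain ⟨x, y, hy, hxy⟩ := mdl_frac ((C' * C⁻¹).u : KK)
    have hx : x ≠ 0 := by
      rintro rfl
      rw [map_zero, zero_div] at hxy
      exact (C' * C⁻¹).u.ne_zero hxy.symm
    have hjy := mdl_jK_ne hy
    have h4 : D' * (x * c) ^ 6 = D * (e * y) ^ 6 := by
      apply jK_inj
      rw [← hxy, ← hbc, div_pow, ← mul_div_assoc, div_eq_div_iff (pow_ne_zero 6 hjy) hjc] at h3
      have h5 := congrArg jK h1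
      simp only [map_mul, map_pow] at h5 ⊢
      linear_combination jK c ^ 5 * h3 + jK y ^ 6 * h5
    obtain ⟨w, hw, h6⟩ := mdl_uniq hD hD' (x * c) (e * y) (mul_ne_zero hx hc) (mul_ne_zero he hy) h4
    rw [h6, mul_pow (x * c) w, mdl_unit6 hw, mul_one] at h4
    exact mul_right_cancel₀ (pow_ne_zero 6 (mul_ne_zero hx hc)) h4

/-- the converse -/
theorem model_j (D : Eis) (hD : D ≠ 0) : ∃ _ : (ED (jK D)).IsElliptic, (ED (jK D)).j = 0 := by
  refine ⟨mdl_isEll (mdl_jK_ne hD), ?_⟩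
  have := mdl_isEll (mdl_jK_ne hD)
  rw [WeierstrassCurve.j_eq_zero_iff]
  exact ED_c₄ _

end JZR
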