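import Pool.Agent.JZR.Count
import Pool.Agent.JXC.A

/-!
# [JZR-X] the proportion, for the class `ClX`
-/

set_option autoImplicit false

open Filter Topology
open scoped Classical

namespace JZR

open CM27 JZ JC JX JXC

/-- the main estimate -/
theorem main_countX (P : Eis → Prop) (hP : ∀ D, ClX D → ¬ IsUnit D → GX D → P D) :
    ∃ X₀ : ℕ, ∀ X : ℕ, X₀ ≤ X →
      26 * count (fun D => ClX D ∧ ¬ IsUnit D) X ≤ 100 * count (fun D => (ClX D ∧ ¬ IsUnit D) ∧ P D) X ∧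
      107 * count (fun _ => True) X ≤ 1000 * count (fun D => (ClX D ∧ ¬ IsUnit D) ∧ P D) X ∧
      41 * count (fun _ => True) X ≤ 100 * count (fun D => ClX D ∧ ¬ IsUnit D) X := by
  obtain ⟨X1, h1⟩ := count_bad
  obtain ⟨X2, h2⟩ := count_badX
  obtain ⟨X3, h3⟩ := count_clX
  obtain ⟨X4, h4⟩ := count_all
  refine ⟨X1 + X2 + X3 + X4 + 100000, fun X hX => ?_⟩
  obtain ⟨f1, n1⟩ := h1 X (by omega)
  obtain ⟨f2, n2⟩ := h2 X (by omega)
  obtain ⟨f3, n3⟩ := h3 X (by omega)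
  obtain ⟨f4, n4⟩ := h4 X (by omega)
  have a1 : count (fun D => ClX D ∧ ¬ IsUnit D) X ≤ {D : Eis | ClX D ∧ D.norm ≤ X}.ncard :=
    Set.ncard_le_ncard (fun D hD => ⟨hD.2.2.1, hD.2.1⟩) f3
  have a2 : count (fun _ => True) X ≤ {D : Eis | D ≠ 0 ∧ D.norm ≤ X}.ncard :=
    Set.ncard_le_ncard (fun D hD => ⟨hD.1.1, hD.2.1⟩) f4
  have hU : {D : Eis | IsUnit D}.Finite ∧ {D : Eis | IsUnit D}.ncard ≤ 6 := by
    have hs : {D : Eis | IsUnit D} ⊆ (({1, -1, CU.om, -CU.om, CU.om ^ 2, -CU.om ^ 2} : Finset Eis) : Set Eis) := by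
      intro D hD
      rcases JC.unit_cases hD with h | h | h | h | h | h <;> rw [h] <;> simp
    have hf : ((({1, -1, CU.om, -CU.om, CU.om ^ 2, -CU.om ^ 2} : Finset Eis) : Set Eis)).Finite :=
      Finset.finite_toSet _
    refine ⟨hf.subset hs, ?_⟩
    refine (Set.ncard_le_ncard hs hf).trans ?_
    rw [Set.ncard_coe_finset]
    exact Finset.card_le_six
  have a3 : {D : Eis | ClX D ∧ D.norm ≤ X}.ncard ≤
      count (fun D => (ClX D ∧ ¬ IsUnit D) ∧ P D) X + ((SB X).ncard + (SBX X).ncard) + 6 := by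
    have hsub : {D : Eis | ClX D ∧ D.norm ≤ X} ⊆
        ({D : Eis | SixthPowerFree D ∧ D.norm ≤ X ∧ (ClX D ∧ ¬ IsUnit D) ∧ P D} ∪ (SB X ∪ SBX X)) ∪
          {D : Eis | IsUnit D} := by
      rintro D ⟨hD1, hD2⟩
      by_cases h4 : IsUnit D
      · exact Or.inr h4
      · rcases (clX_iff D).1 hD1 with h6 | h6
        · by_cases h5 : HasForm D
          · exact Or.inl (Or.inr (Or.inl ⟨h6, h5, hD2⟩))
          · exact Or.inl (Or.inl ⟨spf hD1.1, hD2, ⟨hD1, h4⟩, hP D hD1 h4 (Or.inl ⟨h6, h5⟩)⟩)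
        · by_cases h5 : HasFormX D
          · exact Or.inl (Or.inr (Or.inr ⟨h6, h5, hD2⟩))
          · exact Or.inl (Or.inl ⟨spf hD1.1, hD2, ⟨hD1, h4⟩, hP D hD1 h4 (Or.inr ⟨h6, h5⟩)⟩)
    have hf := finite_le (fun D => (ClX D ∧ ¬ IsUnit D) ∧ P D) X
    refine (Set.ncard_le_ncard hsub ((hf.union (f1.union f2)).union hU.1)).trans ?_
    refine (Set.ncard_union_le _ _).trans ?_
    refine add_le_add ?_ hU.2
    refine (Set.ncard_union_le _ _).trans ?_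
    exact Nat.add_le_add_left (Set.ncard_union_le _ _) _
  have a5 : {D : Eis | ClX D ∧ D.norm ≤ X}.ncard ≤ count (fun D => ClX D ∧ ¬ IsUnit D) X + 6 := by
    have hsub : {D : Eis | ClX D ∧ D.norm ≤ X} ⊆
        {D : Eis | SixthPowerFree D ∧ D.norm ≤ X ∧ (ClX D ∧ ¬ IsUnit D)} ∪ {D : Eis | IsUnit D} := by
      rintro D ⟨hD1, hD2⟩
      by_cases h4 : IsUnit D
      · exact Or.inr h4
      · exact Or.inl ⟨spf hD1.1, hD2, hD1, h4⟩
    refine (Set.ncard_le_ncard hsub ((finite_le _ X).union hU.1)).trans ?_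
    exact (Set.ncard_union_le _ _).trans (Nat.add_le_add_left hU.2 _)
  refine ⟨?_, ?_, ?_⟩
  · omega
  · omega
  · omega

end JZR
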