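import Pool.Agent.JC.A
import Pool.Agent.JC.C1
import Pool.Agent.JC.C6
import Pool.Agent.JC.C3
import Pool.Agent.JZR.Model

/-!
# [JZR] the proportion
-/

set_option autoImplicit false

open Filter Topology
open scoped Classical

namespace JZR

open CM27 JZ JC

/-- the number of the sixth-power-free `D` of norm at most `X` with the property `P` -/
noncomputable def count (P : Eis → Prop) (X : ℕ) : ℕ := {D : Eis | SixthPowerFree D ∧ D.norm ≤ X ∧ P D}.ncard

theorem spf {D : Eis} (h : Squarefree D) : SixthPowerFree D := by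
  refine ⟨h.ne_zero, fun q hq h6 => hq.not_isUnit (h q ?_)⟩
  exact (Dvd.intro (q ^ 4) (by ring)).trans h6

theorem finite_le (P : Eis → Prop) (X : ℕ) : {D : Eis | SixthPowerFree D ∧ D.norm ≤ X ∧ P D}.Finite :=
  (norm_fin X).subset fun _ hD => hD.2.1

theorem count_mono {P Q : Eis → Prop} (h : ∀ D, P D → Q D) (X : ℕ) : count P X ≤ count Q X :=
  Set.ncard_le_ncard (fun _ hD => ⟨hD.1, hD.2.1, h _ hD.2.2⟩) (finite_le Q X)

theorem cl_unit {D : Eis} (h : Cl D) (hu : IsUnit D) : D = -1 := by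
  obtain ⟨η, h1, h2, -⟩ := h.2.1
  rcases JC.unit_cases hu with h3 | h3 | h3 | h3 | h3 | h3
  · exact absurd ⟨0, by rw [h3]; ring⟩ (h.2.2 1)
  · exact h3
  all_goals
    exfalso
    rw [h3, three_dvd_iff] at h2
    rcases h1 with h1 | h1
    · rw [h1] at h2
      revert h2
      decide
    · rw [h1] at h2
      revert h2
      decide

/-- the main estimate -/
theorem main_count (P : Eis → Prop) (hP : ∀ D, Cl D → D ≠ -1 → ¬ HasForm D → P D) :
    ∃ X₀ : ℕ, ∀ X : ℕ, X₀ ≤ X →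
      26 * count (fun D => Cl D ∧ D ≠ -1) X ≤ 100 * count (fun D => (Cl D ∧ D ≠ -1) ∧ P D) X ∧
      26 * count (fun _ => True) X ≤ 1000 * count (fun D => (Cl D ∧ D ≠ -1) ∧ P D) X := by
  obtain ⟨X1, h1⟩ := count_bad
  obtain ⟨X2, h2⟩ := count_cl
  obtain ⟨X3, h3⟩ := count_all
  refine ⟨max (max X1 X2) (max X3 10000), fun X hX => ?_⟩
  have hX1 : X1 ≤ X := (le_max_left _ _).trans ((le_max_left _ _).trans hX)
  have hX2 : X2 ≤ X := (le_max_right _ _).trans ((le_max_left _ _).trans hX)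
  have hX3 : X3 ≤ X := (le_max_left _ _).trans ((le_max_right _ _).trans hX)
  have hX4 : 10000 ≤ X := (le_max_right _ _).trans ((le_max_right _ _).trans hX)
  obtain ⟨f1, n1⟩ := h1 X hX1
  obtain ⟨f2, n2⟩ := h2 X hX2
  obtain ⟨f3, n3⟩ := h3 X hX3
  have a1 : count (fun D => Cl D ∧ D ≠ -1) X ≤ {D : Eis | Cl D ∧ D.norm ≤ X}.ncard :=
    Set.ncard_le_ncard (fun D hD => ⟨hD.2.2.1, hD.2.1⟩) f2
  have a2 : count (fun _ => True) X ≤ {D : Eis | D ≠ 0 ∧ D.norm ≤ X}.ncard :=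
    Set.ncard_le_ncard (fun D hD => ⟨hD.1.1, hD.2.1⟩) f3
  have a3 : {D : Eis | Cl D ∧ D.norm ≤ X}.ncard ≤
      count (fun D => (Cl D ∧ D ≠ -1) ∧ P D) X + (SB X).ncard + 1 := by
    have hsub : {D : Eis | Cl D ∧ D.norm ≤ X} ⊆
        ({D : Eis | SixthPowerFree D ∧ D.norm ≤ X ∧ (Cl D ∧ D ≠ -1) ∧ P D} ∪ SB X) ∪ {-1} := by
      rintro D ⟨hD1, hD2⟩
      by_cases h4 : D = -1
      · exact Or.inr h4
      · by_cases h5 : HasForm D
        · exact Or.inl (Or.inr ⟨hD1, h5, hD2⟩)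
        · exact Or.inl (Or.inl ⟨spf hD1.1, hD2, ⟨hD1, h4⟩, hP D hD1 h4 h5⟩)
    have hf := finite_le (fun D => (Cl D ∧ D ≠ -1) ∧ P D) X
    refine (Set.ncard_le_ncard hsub ((hf.union f1).union (Set.finite_singleton _))).trans ?_
    refine (Set.ncard_union_le _ _).trans ?_
    rw [Set.ncard_singleton]
    exact Nat.add_le_add_right (Set.ncard_union_le _ _) 1
  constructor
  · omega
  · omega

theorem tendsto_count : Tendsto (count fun _ => True) atTop atTop := by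
  obtain ⟨X2, h2⟩ := count_cl
  refine tendsto_atTop.2 fun b => ?_
  filter_upwards [eventually_ge_atTop (max X2 (1000 * b))] with X hX
  have hX2 : X2 ≤ X := (le_max_left _ _).trans hX
  have hX3 : 1000 * b ≤ X := (le_max_right _ _).trans hX
  obtain ⟨f2, n2⟩ := h2 X hX2
  have a1 : {D : Eis | Cl D ∧ D.norm ≤ X}.ncard ≤ count (fun _ => True) X :=
    Set.ncard_le_ncard (fun D hD => ⟨spf hD.1.1, hD.2, trivial⟩) (finite_le _ X)
  omega

end JZR
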