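import Pool.Agent.JD.Defs
import Pool.Agent.CU.ZW

/-!
# [JZR-B] the primes of bad reduction of the surface

Model: `CU.badSet_W` in Pool/Agent/CU/ZW.lean (there the curve is `y² + D y = x³` and the bad primes divide `3 N(D)`; here `y² = x³ + D`, discriminant `-432 D²`, the bad primes divide `6 N(D)`).
-/

set_option autoImplicit false

open NumberField IsDedekindDomain
open scoped Classical

namespace JZR

open CM27 CF JD
open CU (eE)

theorem badSet (D : Eis) (hD : D ≠ 0) : WR.IsBadSet (ED (jK D)) (6 * D.norm.natAbs).primeFactors := by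
  have hDn : D.norm ≠ 0 := (CM27.a1_norm_pos hD).ne'
  have hN0 : D.norm.natAbs ≠ 0 := Int.natAbs_ne_zero.2 hDn
  refine ⟨fun p hp => Nat.prime_of_mem_primeFactors hp, ?_⟩
  intro p hp hpS v hv
  have hv' : (p : 𝓞 KK) ∈ v.asIdeal := hv
  have hndvd : ¬ p ∣ 6 * D.norm.natAbs := by
    intro h1
    exact hpS (Nat.mem_primeFactors.2 ⟨hp, h1, mul_ne_zero (by norm_num) hN0⟩)
  have hp3 : p ≠ 3 := by
    rintro rfl
    exact hndvd (Dvd.dvd.mul_right (by norm_num) _)
  have hp2 : p ≠ 2 := by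
    rintro rfl
    exact hndvd (Dvd.dvd.mul_right (by norm_num) _)
  have hpN : ¬ (p : ℤ) ∣ D.norm := fun h => hndvd (Dvd.dvd.mul_left (Int.natCast_dvd.1 h) _)
  have hpD : ¬ (p : ℤ) ∣ discr KK := by
    intro h
    have h1 : (discr KK).natAbs = 3 := by
      have h2 := CU.abs_discr_KK
      have h3 : |discr KK| = 3 := by exact_mod_cast h2
      rw [← Int.natCast_natAbs] at h3
      exact_mod_cast h3
    have h2 : p ∣ 3 := by
      rw [← h1]
      exact Int.natCast_dvd.1 h
    exact hp3 ((Nat.prime_dvd_prime_iff_eq hp Nat.prime_three).1 h2)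
  have hcop : ∀ n : ℤ, ¬ (p : ℤ) ∣ n → (n : 𝓞 KK) ∉ v.asIdeal := by
    intro n hn hnv
    obtain ⟨a, b, hab⟩ := (Int.isCoprime_iff_gcd_eq_one.2
      ((Int.isCoprime_iff_gcd_eq_one.1 (((Nat.prime_iff_prime_int.1 hp).irreducible.coprime_iff_not_dvd).2 hn))) :
      IsCoprime (p : ℤ) n)
    apply v.isPrime.ne_top
    rw [Ideal.eq_top_iff_one]
    have h5 : ((a : 𝓞 KK)) * p + b * (n : 𝓞 KK) = 1 := by
      exact_mod_cast congrArg (Int.cast : ℤ → 𝓞 KK) hab
    rw [← h5]
    exact add_mem (Ideal.mul_mem_left _ _ hv') (Ideal.mul_mem_left _ _ hnv)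
  refine ⟨NGW.not_ram_of_discr KK p hp hpD v hv', ?_⟩
  have e : (ED (jK D)).baseChange (v.adicCompletion KK) =
      (ED (algebraMap (𝓞 KK) (v.adicCompletionIntegers KK) (eE D))).map
        (algebraMap (v.adicCompletionIntegers KK) (v.adicCompletion KK)) := by
    rw [WeierstrassCurve.baseChange, ED_map, ED_map]
    rfl
  rw [e]
  refine NG3W.hasGoodReduction_of_unit _ _ _ ?_
  rw [ED_Δ]
  have h432 : (-432 : v.adicCompletionIntegers KK) = -(2 ^ 4 * 3 ^ 3) := by norm_num
  rw [h432]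
  refine (IsUnit.neg ((IsUnit.pow 4 ?_).mul (IsUnit.pow 3 ?_))).mul (IsUnit.pow 2 ?_)
  · have h1 : (2 : v.adicCompletionIntegers KK) =
        algebraMap (𝓞 KK) (v.adicCompletionIntegers KK) ((2 : ℤ) : 𝓞 KK) := by
      rw [Int.cast_ofNat, map_ofNat]
    rw [h1]
    apply CMT.isUnit_completion'
    apply hcop
    intro h
    exact hp2 ((Nat.prime_dvd_prime_iff_eq hp Nat.prime_two).1 (by exact_mod_cast h))
  · have h1 : (3 : v.adicCompletionIntegers KK) =
        algebraMap (𝓞 KK) (v.adicCompletionIntegers KK) ((3 : ℤ) : 𝓞 KK) := by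
      rw [Int.cast_ofNat, map_ofNat]
    rw [h1]
    apply CMT.isUnit_completion'
    apply hcop
    intro h
    exact hp3 ((Nat.prime_dvd_prime_iff_eq hp Nat.prime_three).1 (by exact_mod_cast h))
  · apply CMT.isUnit_completion'
    intro h
    refine hcop D.norm hpN ?_
    have h1 : ((D.norm : ℤ) : 𝓞 KK) = eE D * eE (star D) := by
      rw [← map_mul, ← CM27.a2_cast_norm, map_intCast]
    rw [h1]
    exact Ideal.mul_mem_right _ _ h

end JZR
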